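import Pool.Agent.Helper65.KH.Goals

set_option autoImplicit false

open MvPolynomial

namespace Pool.Agent.Helper36.KH.RB

open Pool.Agent.Helper65.KH

/-- the dimension count: multiplication by `a` maps onto a subspace of `I1 / I0` and its kernel is
contained in `I2` -/
theorem key {R : Type} [CommRing R] [Algebra ℚ R] (I0 I1 I2 : Ideal R) (a : R) (h01 : I0 ≤ I1)
    (ha : a ∈ I1) (hk : ∀ f, a * f ∈ I0 → f ∈ I2) [Module.Finite ℚ (R ⧸ I0)] :
    Module.finrank ℚ (R ⧸ I1) + Module.finrank ℚ (R ⧸ I2) ≤ Module.finrank ℚ (R ⧸ I0) := by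
  let Ψ : (R ⧸ I0) →ₗ[ℚ] (R ⧸ I1) := (Ideal.Quotient.factorₐ ℚ h01).toLinearMap
  have hΨ : Function.Surjective Ψ := Ideal.Quotient.factor_surjective h01
  have hΨm : ∀ x : R, Ψ (Ideal.Quotient.mk I0 x) = Ideal.Quotient.mk I1 x := fun x => rfl
  let α : R →ₗ[ℚ] (R ⧸ I0) := (Ideal.Quotient.mkₐ ℚ I0).toLinearMap ∘ₗ (LinearMap.mulLeft ℚ a)
  have hα : ∀ x : R, α x = Ideal.Quotient.mk I0 (a * x) := fun x => rfl
  let β : R →ₗ[ℚ] (R ⧸ I2) := (Ideal.Quotient.mkₐ ℚ I2).toLinearMap
  have hβ : ∀ x : R, β x = Ideal.Quotient.mk I2 x := fun x => rfl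
  have hker : LinearMap.ker α ≤ LinearMap.ker β := by
    intro x hx
    rw [LinearMap.mem_ker, hα, Ideal.Quotient.eq_zero_iff_mem] at hx
    rw [LinearMap.mem_ker, hβ, Ideal.Quotient.eq_zero_iff_mem]
    exact hk x hx
  have hβs : Function.Surjective β := Ideal.Quotient.mk_surjective
  have hrange : LinearMap.range α ≤ LinearMap.ker Ψ := by
    rintro _ ⟨x, rfl⟩
    rw [LinearMap.mem_ker, hα, hΨm, Ideal.Quotient.eq_zero_iff_mem]
    exact Ideal.mul_mem_right _ _ ha
  have h1 := Ψ.finrank_range_add_finrank_ker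
  rw [LinearMap.range_eq_top.2 hΨ, finrank_top] at h1
  have h2 : Module.finrank ℚ (LinearMap.range α) ≤ Module.finrank ℚ (LinearMap.ker Ψ) :=
    Submodule.finrank_mono hrange
  let γ : (R ⧸ LinearMap.ker α) →ₗ[ℚ] (R ⧸ I2) := (LinearMap.ker α).liftQ β hker
  have hγ : Function.Surjective γ := by
    intro y
    obtain ⟨x, rfl⟩ := hβs y
    exact ⟨Submodule.Quotient.mk x, rfl⟩
  have e : (R ⧸ LinearMap.ker α) ≃ₗ[ℚ] LinearMap.range α := α.quotKerEquivRange
  have : Module.Finite ℚ (R ⧸ LinearMap.ker α) := Module.Finite.equiv e.symm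
  have h3 : Module.finrank ℚ (R ⧸ I2) ≤ Module.finrank ℚ (R ⧸ LinearMap.ker α) :=
    LinearMap.finrank_le_finrank_of_surjective hγ
  rw [e.finrank_eq] at h3
  omega

theorem idl_update {ι : Type} [Fintype ι] [DecidableEq ι] (H : ι → MvPolynomial ι ℚ) (i : ι)
    (a : MvPolynomial ι ℚ) :
    idl (Function.update H i a) =
      Ideal.span {a} ⊔ Ideal.span (H '' ((Finset.univ.erase i : Finset ι) : Set ι)) := by
  unfold idl
  rw [← Ideal.span_union]
  congr 1
  ext f
  simp only [Set.mem_range, Set.mem_union, Set.mem_singleton_iff, Set.mem_image, Finset.coe_erase,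
    Finset.coe_univ, Set.mem_sdiff, Set.mem_univ, true_and]
  constructor
  · rintro ⟨j, rfl⟩
    by_cases hj : j = i
    · subst hj
      left
      simp
    · right
      exact ⟨j, hj, by simp [Function.update_of_ne hj]⟩
  · rintro (rfl | ⟨j, hj, rfl⟩)
    · exact ⟨i, by simp⟩
    · exact ⟨j, by simp [Function.update_of_ne hj]⟩

theorem t (hFD : S_FD) (hMO : S_MO) (hRA : S_RA) : S_RB := by
  intro ι _ _ H i a b hRS hi M'
  set Q : Ideal (MvPolynomial ι ℚ) :=
    Ideal.span (H '' ((Finset.univ.erase i : Finset ι) : Set ι)) with hQ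
  have hR := hRA ι H (Function.update H i a) hRS (by
    intro j
    by_cases hj : j = i
    · subst hj
      rw [Function.update_self, hi]
      exact Dvd.intro b rfl
    · rw [Function.update_of_ne hj])
  have hNz := hR (Finset.univ.erase i) i (Finset.notMem_erase i _)
  have him : (Function.update H i a) '' ((Finset.univ.erase i : Finset ι) : Set ι) =
      H '' ((Finset.univ.erase i : Finset ι) : Set ι) := by
    refine Set.image_congr ?_
    intro j hj
    have hj' : j ≠ i := by
      have := Finset.mem_coe.1 hj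
      exact Finset.ne_of_mem_erase this
    exact Function.update_of_ne hj' _ _
  rw [him, Function.update_self, ← hQ] at hNz
  obtain ⟨M1, hM1⟩ := hNz M'
  have hH : idl H = Ideal.span {a * b} ⊔ Q := by
    have h := idl_update H i (H i)
    rw [Function.update_eq_self] at h
    rw [h, hi]
  have hmm : ∀ M M'' : ℕ, M'' ≤ M → mm ι M ≤ mm ι M'' := by
    intro M M'' hM
    unfold mm
    refine Ideal.span_mono ?_
    rintro f ⟨p, hp, rfl⟩
    exact ⟨p, hM.trans hp, rfl⟩
  refine ⟨max M1 M', ?_⟩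
  set M := max M1 M' with hM
  have h1 : dq (idl (Function.update H i a)) M' ≤ dq (idl (Function.update H i a)) M :=
    hMO ι _ _ _ _ le_rfl (le_max_right _ _)
  refine (Nat.add_le_add_right h1 _).trans ?_
  unfold dq
  have := hFD ι (idl H) M
  refine key (idl H ⊔ mm ι M) (idl (Function.update H i a) ⊔ mm ι M)
    (idl (Function.update H i b) ⊔ mm ι M') a ?_ ?_ ?_
  · refine sup_le_sup_right ?_ _
    rw [hH, idl_update]
    refine sup_le_sup_right ?_ _
    rw [Ideal.span_singleton_le_span_singleton]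
    exact Dvd.intro b rfl
  · rw [idl_update]
    exact Ideal.mem_sup_left (Ideal.mem_sup_left (Ideal.mem_span_singleton_self a))
  · intro f hf
    rw [hH, sup_assoc] at hf
    obtain ⟨y, hy, z, hz, hyz⟩ := Submodule.mem_sup.1 hf
    obtain ⟨h, rfl⟩ := Ideal.mem_span_singleton'.1 hy
    have h2 : a * (f - h * b) ∈ Q ⊔ mm ι M := by
      have : a * (f - h * b) = z := by
        rw [mul_sub, ← hyz]; ring
      rw [this]; exact hz
    have h3 : a * (f - h * b) ∈ Q ⊔ mm ι M1 :=
      (sup_le_sup_left (hmm M M1 (le_max_left _ _)) _) h2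
    have h4 := hM1 _ h3
    rw [idl_update, ← hQ, sup_assoc]
    have h5 : f = h * b + (f - h * b) := by ring
    rw [h5]
    exact Submodule.add_mem_sup (Ideal.mul_mem_left _ _ (Ideal.mem_span_singleton_self b)) h4

end Pool.Agent.Helper36.KH.RB
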